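import Pool.Agent.MP_bd94e8_al.H83A.Cor

/-!
Decompositions and finite lists of indecomposable modules.
-/

set_option autoImplicit false
set_option linter.unusedSectionVars false

namespace Pool.Agent.MP_bd94e8_al.H83A

open Module Function H83 H89

variable {A : Type} [Ring A]

/-- The module structure over the base. -/
@[reducible] def modC (C : Type) [CommRing C] (A : Type) [Ring A] [Algebra C A] (M : Type)
    [AddCommGroup M] [Module A M] : Module C M := Module.compHom M (algebraMap C A)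

theorem towC (C : Type) [CommRing C] (A : Type) [Ring A] [Algebra C A] (M : Type)
    [AddCommGroup M] [Module A M] : letI := modC C A M; IsScalarTower C A M :=
  letI := modC C A M
  IsScalarTower.of_algebraMap_smul fun _ _ => rfl

theorem decomp' [IsArtinianRing A] [IsNoetherianRing A] {σ : Type} {X : σ → Type}
    [∀ s, AddCommGroup (X s)] [∀ s, Module A (X s)] (n : ℕ) : ∀ (Y : Type) [AddCommGroup Y]
    [Module A Y] [Module.Finite A Y], len A Y = n → (∀ (G : Type) [AddCommGroup G] [Module A G],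
      Indec A G → Smd A G Y → ∃ i, Nonempty (G ≃ₗ[A] X i)) →
    ∃ (τ : Type) (_ : Fintype τ) (_ : DecidableEq τ) (l : τ → σ), Fintype.card τ ≤ n ∧
      Nonempty (Y ≃ₗ[A] ∀ s, X (l s)) := by
  induction n using Nat.strong_induction_on with
  | _ n ih =>
  intro Y _ _ _ hn h
  rcases subsingleton_or_nontrivial Y with h0 | h0
  · exact ⟨Empty, inferInstance, inferInstance, Empty.elim, by simp,
      ⟨LinearEquiv.ofSubsingleton _ _⟩⟩
  by_cases hI : Indec A Y
  · obtain ⟨i, ⟨e⟩⟩ := h Y hI (Smd.of_equiv (LinearEquiv.refl _ _))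
    exact ⟨Unit, inferInstance, inferInstance, fun _ => i, hn ▸ len_pos,
      ⟨e.trans (LinearEquiv.funUnique Unit A _).symm⟩⟩
  simp only [Indec, h0, true_and, not_forall, not_or] at hI
  obtain ⟨P, Q, hc, hP, hQ⟩ := hI
  have e := Submodule.prodEquivOfIsCompl P Q hc
  have h1 := e.length_eq
  have := Submodule.nontrivial_iff_ne_bot.2 hP
  have := Submodule.nontrivial_iff_ne_bot.2 hQ
  have h2 := len_pos (R := A) (U := P)
  have h3 := len_pos (R := A) (U := Q)
  rw [length_prod, ← len_cast, ← len_cast, ← len_cast, hn] at h1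
  norm_cast at h1
  obtain ⟨τ, _, _, l, a, ⟨e1⟩⟩ := ih _ (by omega) P rfl fun G _ _ hG hs =>
    h G hG ((hs.trans ⟨LinearMap.inl A P Q, LinearMap.fst A P Q, rfl⟩).trans (.of_equiv e))
  obtain ⟨τ', _, _, l', a', ⟨e2⟩⟩ := ih _ (by omega) Q rfl fun G _ _ hG hs =>
    h G hG ((hs.trans ⟨LinearMap.inr A P Q, LinearMap.snd A P Q, rfl⟩).trans (.of_equiv e))
  exact ⟨τ ⊕ τ', inferInstance, inferInstance, Sum.elim l l', by rw [Fintype.card_sum]; omega,
    ⟨e.symm.trans ((e1.prodCongr e2).trans
      (LinearEquiv.sumPiEquivProdPi A τ τ' fun s => X (Sum.elim l l' s)).symm)⟩⟩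

/-- A finitely generated module is a finite product of indecomposable modules. -/
theorem exists_decomp [IsArtinianRing A] [IsNoetherianRing A] (Y : Type) [AddCommGroup Y]
    [Module A Y] [Module.Finite A Y] :
    ∃ (τ : Type) (_ : Fintype τ) (_ : DecidableEq τ) (X : τ → Submodule A Y),
      (∀ s, Indec A (X s) ∧ Smd A (X s) Y) ∧ Nonempty (Y ≃ₗ[A] ∀ s, X s) := by
  obtain ⟨τ, _, _, l, -, ⟨e⟩⟩ := decomp' (A := A) (σ := {P : Submodule A Y // Indec A P})
    (X := fun s => s.1) _ Y rfl fun G _ _ hG hs => by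
      obtain ⟨a, b, h⟩ := hs
      have e := LinearEquiv.ofInjective a (LeftInverse.injective (LinearMap.congr_fun h))
      exact ⟨⟨_, hG.congr e⟩, ⟨e⟩⟩
  exact ⟨τ, inferInstance, inferInstance, fun s => (l s).1,
    fun s => ⟨(l s).2, (Smd.single (X := fun s => (l s).1) s).trans (.of_equiv e.symm)⟩, ⟨e⟩⟩

/-- A finite family that contains all modules with the property gives a finite list. -/
theorem finMany_of_fam {p : ∀ (M : Type) [AddCommGroup M] [Module A M], Prop} {ι : Type} [Finite ι]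
    (X : ι → Type) [∀ i, AddCommGroup (X i)] [∀ i, Module A (X i)]
    (h : ∀ (M : Type) [AddCommGroup M] [Module A M], Module.Finite A M → Indec A M → p M →
      ∃ i, Nonempty (M ≃ₗ[A] X i)) : FinMany A p := by
  classical
  let T := {i : ι // ∃ (M : Type) (_ : AddCommGroup M) (_ : Module A M),
    (Module.Finite A M ∧ Indec A M ∧ p M) ∧ Nonempty (M ≃ₗ[A] X i)}
  obtain ⟨n, ⟨ε⟩⟩ := Finite.exists_equiv_fin T
  choose Y i1 i2 h1 h2 using fun t : T => t.2
  refine ⟨n, fun j => Y (ε.symm j), fun j => i1 _, fun j => i2 _, fun j => h1 _,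
    fun M _ _ a b c => ?_⟩
  obtain ⟨i, ⟨e⟩⟩ := h M a b c
  let t : T := ⟨i, M, _, _, ⟨a, b, c⟩, ⟨e⟩⟩
  obtain ⟨j, hj⟩ := ε.symm.surjective t
  obtain ⟨e'⟩ := h2 (ε.symm j)
  rw [show (ε.symm j).1 = i from congrArg Subtype.val hj] at e'
  exact ⟨j, ⟨e.trans e'.symm⟩⟩

theorem _root_.Pool.Agent.MP_bd94e8_al.H89.FinMany.mono
    {p q : ∀ (M : Type) [AddCommGroup M] [Module A M], Prop} (h : FinMany A p)
    (hq : ∀ (M : Type) [AddCommGroup M] [Module A M], Module.Finite A M → Indec A M → q M → p M) :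
    FinMany A q := by
  obtain ⟨n, X, _, _, -, h⟩ := h
  exact finMany_of_fam X fun M _ _ a b c => h M a b (hq M a b c)

/-- Finitely many finitely generated modules have finitely many indecomposable summands. -/
theorem finMany_smd [IsArtinianRing A] [IsNoetherianRing A] {ι : Type} [Finite ι] (Y : ι → Type)
    [∀ i, AddCommGroup (Y i)] [∀ i, Module A (Y i)] [∀ i, Module.Finite A (Y i)] :
    FinMany A fun M _ _ => ∃ i, Smd A M (Y i) := by
  choose τ i1 i2 X h1 h2 using fun i => exists_decomp (A := A) (Y i)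
  refine finMany_of_fam (ι := Σ i, τ i) (fun t => X t.1 t.2) fun M _ _ a b ⟨i, c⟩ => ?_
  have := b.loc
  obtain ⟨s, hs⟩ := (c.trans (.of_equiv (h2 i).some)).pi
  exact ⟨⟨i, s⟩, hs.equiv b (h1 i s).1⟩

theorem _root_.Pool.Agent.MP_bd94e8_al.H89.FinMany.bdd [IsArtinianRing A] [IsNoetherianRing A]
    {p : ∀ (M : Type) [AddCommGroup M] [Module A M], Prop} (h : FinMany A p) :
    ∃ c : ℕ, ∀ (M : Type) [AddCommGroup M] [Module A M], Module.Finite A M → Indec A M → p M →
      length A M ≤ c := by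
  obtain ⟨n, X, _, _, h1, h⟩ := h
  refine ⟨Finset.univ.sup fun i => len A (X i), fun M _ _ a b c => ?_⟩
  obtain ⟨i, ⟨e⟩⟩ := h M a b c
  have := (h1 i).1
  rw [e.length_eq, ← len_cast, Nat.cast_le]
  exact Finset.le_sup (f := fun i => len A (X i)) (Finset.mem_univ i)

/-- The length over the base dominates the length. -/
theorem length_le_base (C : Type) [CommRing C] [Algebra C A] (M : Type) [AddCommGroup M]
    [Module A M] [Module C M] [IsScalarTower C A M] : length A M ≤ length C M := by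
  rw [← WithBot.coe_le_coe, coe_length, coe_length]
  exact Order.krullDim_le_of_strictMono (Submodule.restrictScalars C)
    (Submodule.restrictScalarsEmbedding C A M).strictMono

/-- Every nonzero element generates a nonzero element of the socle. -/
theorem exists_soc (C : Type) [CommRing C] [IsArtinianRing C] [Algebra C A] [Module.Finite C A]
    {M : Type} [AddCommGroup M] [Module A M] {x : M} (hx : x ≠ 0) :
    ∃ a : A, a • x ≠ 0 ∧ ∀ r ∈ Ring.jacobson A, r • a • x = 0 := by
  by_contra hn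
  push Not at hn
  obtain ⟨N, hN⟩ := jac_pow C A
  have key : ∀ n : ℕ, ∃ a ∈ Ring.jacobson A ^ n, a • x ≠ 0 := fun n => by
    induction n with
    | zero => exact ⟨1, by rw [Submodule.pow_zero, Ideal.one_eq_top]; trivial, by simpa⟩
    | succ n ih =>
      obtain ⟨a, h1, h2⟩ := ih
      obtain ⟨r, h3, h4⟩ := hn a h2
      exact ⟨r * a, by rw [Ideal.IsTwoSided.pow_succ]; exact Ideal.mul_mem_mul h3 h1,
        by rwa [mul_smul]⟩
  obtain ⟨a, h1, h2⟩ := key N
  rw [hN, Ideal.mem_bot] at h1
  exact h2 (by rw [h1, zero_smul])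

end Pool.Agent.MP_bd94e8_al.H83A
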