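import Pool.Agent.MP_bd94e8_al.H83A.Kit

/-!
The number of summands of the quotient is bounded.
-/

set_option autoImplicit false

namespace Pool.Agent.MP_bd94e8_al.H83A

open Module Function IsLocalRing H83

namespace CntB

theorem exists_rel {C T N : Type} [CommRing C] [IsArtinianRing C] [IsLocalRing C] [Fintype T]
    [AddCommGroup N] [Module C N] [Module.Finite C N] (η : T → N)
    (hT : len C N < Fintype.card T) :
    ∃ c : T → C, ∑ t, c t • η t = 0 ∧ ∃ t, IsUnit (c t) := by
  by_contra hn
  push Not at hn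
  let ρ : (T → C) →ₗ[C] (T → C ⧸ maximalIdeal C) := (maximalIdeal C).mkQ.compLeft T
  have h1 := len_rel' ρ (Fintype.linearCombination C η) ⊥ ⊥
    (fun y => by
      choose x hx using fun t => (maximalIdeal C).mkQ_surjective (y t)
      exact ⟨x, funext hx⟩)
    fun c hc => funext fun t => (Submodule.Quotient.mk_eq_zero _).2 (hn c hc t)
  rw [len_quot_bot, len_quot_bot, length_pi_of_fintype, ← len_cast (U := N)] at h1
  have : Nontrivial (C ⧸ maximalIdeal C) := Ideal.Quotient.nontrivial_iff.2 Ideal.IsPrime.ne_top'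
  have h2 : (Fintype.card T : ℕ∞) ≤ _ := le_trans (by simp)
    ((Finset.sum_le_sum (f := fun _ => (1 : ℕ∞)) fun i _ =>
      Order.one_le_iff_pos.2 length_pos).trans h1)
  exact hT.not_ge (Nat.cast_le.1 h2)

end CntB

theorem sCnt : SCnt := by
  intro C A _ _ _ _ _ _ m X _ _ hX c
  classical
  have := artin C A
  have := noeth C A
  have hX1 := fun i => (hX i).1
  choose n π hπ using fun i => Module.Finite.exists_fin' A (X i)
  choose r hr using fun i => hom_bound (C := C) A (LinearMap.ker (π i))
  refine ⟨c + ∑ i, (r i * (c * len C A) + 1) * len A (X i), fun M _ _ _ hM W _ hc τ _ l ⟨e⟩ => ?_⟩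
  let _ := modC C A M
  have := towC C A M
  by_cases h : ∀ i, Fintype.card {s // l s = i} ≤ r i * (c * len C A)
  · rw [len_sub_quot W, e.length_eq, length_pi_of_fintype, ← Finset.sum_fiberwise _ l, Nat.cast_add,
      Nat.cast_sum]
    refine add_le_add hc (Finset.sum_le_sum fun i _ => ?_)
    rw [Finset.sum_congr rfl (g := fun _ => length A (X i)) fun s hs => by
      rw [(Finset.mem_filter.1 hs).2], Finset.sum_const, nsmul_eq_mul, ← len_cast,
      ← Fintype.card_subtype]
    exact_mod_cast Nat.mul_le_mul_right _ ((h i).trans (Nat.le_succ _))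
  obtain ⟨i, hi⟩ := not_forall.1 h
  let ι : ∀ s : {s // l s = i}, X i ≃ₗ[A] X (l s.1) := fun s => LinearEquiv.cast s.2.symm
  let q : M →ₗ[A] ∀ s, X (l s) := e.toLinearMap ∘ₗ W.mkQ
  have hq : Surjective q := e.surjective.comp W.mkQ_surjective
  choose p hp using fun s : {s // l s = i} => projective_lifting_property q
    (LinearMap.single A (fun s => X (l s)) s.1 ∘ₗ (ι s).toLinearMap ∘ₗ π i) hq
  choose η hη using fun s => exists_fac W.subtype_injective (p s ∘ₗ (LinearMap.ker (π i)).subtype)
    fun x => by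
      have := LinearMap.congr_fun (hp s) x.1
      simp only [LinearMap.comp_apply, LinearMap.mem_ker.1 x.2, map_zero] at this
      rw [Submodule.range_subtype]
      exact (Submodule.Quotient.mk_eq_zero _).1 (e.map_eq_zero_iff.1 this)
  obtain ⟨a, h1, s, h2⟩ := CntB.exists_rel (C := C) η
    (((hr i W).trans (Nat.mul_le_mul_left _ (len_le_mul C W hc))).trans_lt (not_le.1 hi))
  obtain ⟨t, ht⟩ := exists_desc (hπ i) (∑ s, a s • p s) fun x hx => by
    have := congrArg (fun f => (f ⟨x, hx⟩ : M)) h1
    simp only [LinearMap.sum_apply, LinearMap.smul_apply, Submodule.coe_sum,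
      LinearMap.zero_apply, Submodule.coe_zero] at this
    rw [LinearMap.mem_ker, LinearMap.sum_apply, ← this]
    exact Finset.sum_congr rfl fun s _ => congrArg (a s • ·) (LinearMap.congr_fun (hη s) ⟨x, hx⟩).symm
  obtain ⟨b, hb⟩ := h2.exists_left_inv
  have := (hX i).2
  have h3 : ((ι s).symm.toLinearMap ∘ₗ LinearMap.proj s.1 ∘ₗ q) ∘ₗ (b • t) = LinearMap.id :=
    LinearMap.ext fun x => by
      obtain ⟨x, rfl⟩ := hπ i x
      have e1 : b • t (π i x) = ∑ s, algebraMap C A (b * a s) • p s x := by
        rw [← LinearMap.comp_apply, ht, LinearMap.sum_apply, Finset.smul_sum]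
        exact Finset.sum_congr rfl fun s _ => by rw [LinearMap.smul_apply, smul_smul]; rfl
      have e2 : ∀ s, q (p s x) = Pi.single s.1 (ι s (π i x)) := fun s =>
        LinearMap.congr_fun (hp s) x
      simp only [LinearMap.comp_apply, LinearMap.smul_apply, e1, map_sum, map_smul, e2,
        LinearMap.proj_apply]
      rw [Finset.sum_eq_single s (fun u _ hu => by
        rw [Pi.single_eq_of_ne fun h => hu (Subtype.ext h).symm, map_zero, smul_zero]) (by simp),
        hb, map_one, one_smul, Pi.single_eq_same]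
      exact (ι s).symm_apply_apply _
  rw [← (LinearEquiv.ofBijective _ (hM.bij h3).1).length_eq, ← len_cast, Nat.cast_le]
  refine le_add_left (le_trans ?_ (Finset.single_le_sum (f := fun i => (r i * (c * len C A) + 1) *
    len A (X i)) (fun _ _ => Nat.zero_le _) (Finset.mem_univ i)))
  exact Nat.le_mul_of_pos_left _ (Nat.succ_pos _)

end Pool.Agent.MP_bd94e8_al.H83A
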