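import Pool.Agent.MP_bd94e8_al.H83A.Kit

/-!
Connections over a bigger Hahn ring.
-/

set_option autoImplicit false

namespace Pool.Agent.MP_bd94e8_al.H83A

open Module Function H83 H89

namespace ExtB

variable (C0 C : Type) [CommRing C0] [CommRing C] [Algebra C0 C]

/-- The coefficientwise map. -/
noncomputable def phi : K C0 →+* K C where
  toFun x := x.map (algebraMap C0 C)
  map_one' := HahnSeries.map_one (algebraMap C0 C).toMonoidWithZeroHom
  map_mul' _ _ := HahnSeries.map_mul (algebraMap C0 C).toNonUnitalRingHom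
  map_zero' := by ext; simp
  map_add' _ _ := by ext; simp

theorem coeff_phi (x : K C0) (g : Gam) : (phi C0 C x).coeff g = algebraMap C0 C (x.coeff g) := rfl

theorem alg_eq (c : C) : algebraMap C (K C) c = HahnSeries.C c := by
  rw [HahnSeries.algebraMap_apply]; rfl

theorem phi_alg (c : C0) :
    phi C0 C (algebraMap C0 (K C0) c) = algebraMap C (K C) (algebraMap C0 C c) := by
  rw [alg_eq, alg_eq]
  exact HahnSeries.map_C (Γ := Gam) c (algebraMap C0 C)

theorem coeff_mul_alg (x : K C) (c : C) (g : Gam) :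
    (x * algebraMap C (K C) c).coeff g = x.coeff g * c := by
  rw [mul_comm, ← Algebra.smul_def, HahnSeries.coeff_smul, smul_eq_mul, mul_comm]

theorem exists_sum {n : ℕ} (c : Fin n → C) (hc : Submodule.span C0 (Set.range c) = ⊤) (a : K C) :
    ∃ b : Fin n → K C0, a = ∑ j, phi C0 C (b j) * algebraMap C (K C) (c j) := by
  obtain ⟨b, hb⟩ := H.exists_sum (C := C0) (M := C) (A := C0) c a fun _ => hc ▸ trivial
  refine ⟨b, HahnSeries.ext (funext fun g => ?_)⟩
  have := congrArg (fun y => H.cf y g) hb
  simp only [H.cf_sum, H.cf_smul_sgl] at this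
  rw [HahnSeries.coeff_sum]
  refine this.trans (Finset.sum_congr rfl fun j _ => ?_)
  rw [coeff_mul_alg, coeff_phi, Algebra.smul_def]

theorem th_phi (i : ℕ) (b : K C0) (c : C) : H.thK i (phi C0 C b * algebraMap C (K C) c) =
    phi C0 C (H.thK i b) * algebraMap C (K C) c := by
  refine HahnSeries.ext (funext fun g => ?_)
  change ofLex g i • (phi C0 C b * algebraMap C (K C) c).coeff g = _
  rw [coeff_mul_alg, coeff_mul_alg, coeff_phi, coeff_phi]
  change _ = algebraMap C0 C (ofLex g i • b.coeff g) * c
  rw [map_zsmul, smul_mul_assoc]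

end ExtB

open ExtB in
theorem sExt : SExt := by
  intro C0 C A _ _ _ _ _ _ _ _ _ h N _ _ _ _ _ _ _ hN i
  obtain ⟨n, c, hc⟩ := Module.Finite.exists_fin (R := C0) (M := C)
  let _ : Algebra (K C0) (K C) := (phi C0 C).toAlgebra
  let _ : Module (K C0) N := Module.compHom N (phi C0 C)
  let _ : Module C0 N := Module.compHom N (algebraMap C0 C)
  have : IsScalarTower (K C0) (K C) N := IsScalarTower.of_algebraMap_smul fun _ _ => rfl
  have : SMulCommClass A (K C0) N := ⟨fun a x y => smul_comm a (phi C0 C x) y⟩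
  have : IsScalarTower C0 (K C0) N := IsScalarTower.of_algebraMap_smul fun r x => by
    change phi C0 C _ • x = algebraMap C0 C r • x
    rw [phi_alg, algebraMap_smul]
  have : IsScalarTower C0 A N := IsScalarTower.of_algebraMap_smul fun r x => by
    change _ = algebraMap C0 C r • x
    rw [IsScalarTower.algebraMap_apply C0 C A, algebraMap_smul]
  have : Module.Finite (K C0) (K C) := ⟨Submodule.fg_iff_exists_fin_generating_family.2
    ⟨n, fun j => algebraMap C (K C) (c j), top_unique fun a _ => by
      obtain ⟨b, rfl⟩ := exists_sum C0 C c hc a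
      exact Submodule.sum_mem _ fun j _ =>
        Submodule.smul_mem _ (b j) (Submodule.subset_span ⟨j, rfl⟩)⟩⟩
  have := (fin_len hN).1
  have : Module.Finite (K C0) N := Module.Finite.trans (K C) N
  have : IsArtinianRing (K C0) := inferInstanceAs (IsArtinian (K C0) (H C0 C0))
  obtain ⟨D, hD⟩ := h N length_ne_top i
  refine ⟨D, fun a x => ?_⟩
  obtain ⟨b, rfl⟩ := exists_sum C0 C c hc a
  have e1 : ∀ (r : C) y, D (algebraMap C (K C) r • y) = algebraMap C (K C) r • D y := fun r y => by
    rw [algebraMap_smul, algebraMap_smul, ← algebraMap_smul A r, map_smul, algebraMap_smul]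
  have e2 : H.thK i (∑ j, phi C0 C (b j) * algebraMap C (K C) (c j)) =
      ∑ j, H.thK i (phi C0 C (b j) * algebraMap C (K C) (c j)) :=
    map_sum (H.th (C := C) (M := C) i) _ _
  rw [e2, Finset.sum_smul, Finset.sum_smul, Finset.sum_smul, map_sum, ← Finset.sum_add_distrib]
  refine Finset.sum_congr rfl fun j _ => ?_
  rw [th_phi, mul_smul, mul_smul, mul_smul, ← e1]
  exact hD (b j) _

end Pool.Agent.MP_bd94e8_al.H83A
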