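import Pool.Agent.MP_bd94e8_al.H83A.All0
import Pool.Agent.MP_bd94e8_al.H83A.Ext
import Pool.Agent.MP_bd94e8_al.H83A.Cnt
import Pool.Agent.MP_bd94e8_al.H64A.Adj

/-!
The algebra level.
-/

set_option autoImplicit false

namespace Pool.Agent.MP_bd94e8_al.H83A

open H89

theorem allA (h : SRaw) : SAll := all0 sExt adj split sCnt h

end Pool.Agent.MP_bd94e8_al.H83A
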