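import Pool.Agent.MP_bd94e8_al.H83A.Kit

/-!
Refinement of idempotents.
-/

set_option autoImplicit false

namespace Pool.Agent.MP_bd94e8_al.H83A

open Module Function H83

theorem sRef : SRef := by
  intro C A _ _ _ n e he h0
  refine ⟨?_, fun i f hf h1 h2 h3 => ?_⟩
  · let φ : A →ₗ[C] ∀ i, LinearMap.range (LinearMap.mulRight C (e i)) :=
      LinearMap.pi fun i => (LinearMap.mulRight C (e i)).rangeRestrict
    have hφ : Surjective φ := fun x => by
      choose y hy using fun i => (x i).2
      refine ⟨∑ i, y i * e i, funext fun j => Subtype.ext ?_⟩
      change (∑ i, y i * e i) * e j = _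
      rw [Finset.sum_mul, Finset.sum_eq_single j (fun i _ h => by
        rw [mul_assoc, he.ortho h, mul_zero]) (by simp), mul_assoc, (he.idem j).eq, ← hy j]
      rfl
    refine le_trans ?_ (length_le_of_surjective φ hφ)
    rw [length_pi_of_fintype]
    refine le_trans (by simp) (Finset.sum_le_sum (f := fun _ => (1 : ℕ∞)) fun i _ => ?_)
    have : Nontrivial (LinearMap.range (LinearMap.mulRight C (e i))) :=
      ⟨⟨e i, 1, one_mul _⟩, 0, fun h => h0 i (congrArg Subtype.val h)⟩
    exact Order.one_le_iff_pos.2 length_pos
  · have a1 := cn_left (he.idem i) h1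
    have a2 := cn_right (he.idem i) h1
    have a3 : ∀ j, j ≠ i → f * e j = 0 ∧ e j * f = 0 := fun j h =>
      ⟨by rw [← a2, mul_assoc, he.ortho h.symm, mul_zero],
        by rw [← a1, ← mul_assoc, he.ortho h, zero_mul]⟩
    have a4 : ∀ j, f * update e i (e i - f) j = 0 ∧ update e i (e i - f) j * f = 0 := fun j => by
      rcases eq_or_ne j i with rfl | h
      · rw [update_self, mul_sub, sub_mul, a1, a2, hf.eq, sub_self]
        exact ⟨rfl, rfl⟩
      · rw [update_of_ne h]
        exact a3 j h
    refine ⟨Fin.cons f (update e i (e i - f)), ⟨⟨fun j => ?_, fun j l h => ?_⟩, ?_⟩, fun j => ?_⟩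
    · refine Fin.cases hf (fun j => ?_) j
      rcases eq_or_ne j i with rfl | h
      · change update e j (e j - f) j * update e j (e j - f) j = update e j (e j - f) j
        rw [update_self, mul_sub, sub_mul, sub_mul, (he.idem j).eq, a1, a2, hf.eq, sub_self,
          sub_zero]
      · simpa [update_of_ne h] using he.idem j
    · induction j using Fin.cases with
      | zero =>
        induction l using Fin.cases with
        | zero => exact (h rfl).elim
        | succ l => exact (a4 l).1
      | succ j =>
        induction l using Fin.cases with
        | zero => exact (a4 j).2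
        | succ l =>
          have h' : j ≠ l := fun e => h (congrArg _ e)
          change update e i (e i - f) j * update e i (e i - f) l = 0
          rcases eq_or_ne j i with rfl | hj
          · rw [update_self, update_of_ne h'.symm, sub_mul, he.ortho h', (a3 l h'.symm).1, sub_zero]
          rcases eq_or_ne l i with rfl | hl
          · rw [update_self, update_of_ne hj, mul_sub, he.ortho h', (a3 j hj).2, sub_zero]
          · rw [update_of_ne hj, update_of_ne hl, he.ortho h']
    · rw [Fin.sum_univ_succ, ← he.complete]
      simp only [Fin.cons_zero, Fin.cons_succ]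
      rw [Finset.sum_update_of_mem (Finset.mem_univ i), ← Finset.add_sum_erase _ _
        (Finset.mem_univ i), Finset.sdiff_singleton_eq_erase, ← add_assoc, add_sub_cancel]
    · refine Fin.cases h2 (fun j => ?_) j
      change update e i (e i - f) j ≠ 0
      rcases eq_or_ne j i with rfl | h
      · rw [update_self]
        exact sub_ne_zero.2 h3.symm
      · rw [update_of_ne h]
        exact h0 j

end Pool.Agent.MP_bd94e8_al.H83A
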