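import Pool.Agent.MP_bd94e8_al.H83A.Glue
import Pool.Agent.MP_bd94e8_al.H83A.Ref
import Pool.Agent.MP_bd94e8_al.H12A.Tri
import Pool.Agent.MP_bd94e8_al.H74A.SepQ
import Pool.Agent.MP_bd94e8_al.H58A.Poly
import Pool.Agent.MP_bd94e8_al.H59A.BaseM
import Pool.Agent.MP_bd94e8_al.H66A.Red
import Pool.Agent.MP_bd94e8_al.H82A.Pres
import Pool.Agent.MP_bd94e8_al.H84A.BaseL
import Pool.Agent.MP_bd94e8_al.H88A.Quot
import Pool.Agent.MP_bd94e8_al.H97A.B2
import Pool.Agent.MP_bd94e8_al.H9A.Edge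
import Pool.Agent.MP_bd94e8_al.H89.B3

set_option autoImplicit false

namespace Pool.Agent.MP_bd94e8_al.H83A

open H89

theorem all0 (hExt : SExt) (hAdj : SAdj) (hSplit : SSplit) (hCnt : SCnt) (h : SRaw) : SAll :=
  all_of hExt sQuot sRef poly hAdj hSplit baseL baseM (tri sSepQ soc edge) sRed pres bas sB2
    (b3 lift) hCnt h

end Pool.Agent.MP_bd94e8_al.H83A
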