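import Pool.Agent.MP_bd94e8_al.H83A.SpecA

/-!
The radical and local corners.
-/

set_option autoImplicit false
set_option linter.unusedSectionVars false

namespace Pool.Agent.MP_bd94e8_al.H83A

open Module Function IsLocalRing H89

section
variable {A : Type} [Ring A]

theorem mem_jac_of_nil {x : A} (h : ∀ r, IsNilpotent (r * x)) : x ∈ Ring.jacobson A := by
  rw [← Ideal.jacobson_bot, Ideal.mem_jacobson_iff]
  intro y
  obtain ⟨u, hu⟩ := (h y).isUnit_add_one
  refine ⟨↑u⁻¹, ?_⟩
  rw [Ideal.mem_bot, mul_assoc, ← mul_add_one, ← hu, Units.inv_mul, sub_self]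

theorem nil_swap {x y : A} (h : IsNilpotent (x * y)) : IsNilpotent (y * x) := by
  obtain ⟨n, hn⟩ := h
  exact ⟨n + 1, by rw [pow_succ, ← mul_assoc, mul_pow_mul, hn, mul_zero, zero_mul]⟩

theorem LocAt.nil_or {e : A} (h : LocAt e) {b : A} (hb : e * b * e = b) :
    IsNilpotent b ∨ ∃ u, e * u * e = u ∧ u * b = e ∧ b * u = e := by
  have := h b
  rwa [hb] at this

theorem idem_left {e x y : A} (he : IsIdempotentElem e) (h : e * y = x) : e * x = x := by
  rw [← h, ← mul_assoc, he.eq]

theorem idem_right {e x y : A} (he : IsIdempotentElem e) (h : y * e = x) : x * e = x := by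
  rw [← h, mul_assoc, he.eq]

theorem cn_left {e e' x : A} (he : IsIdempotentElem e) (h : e * x * e' = x) : e * x = x :=
  idem_left he (by rw [← mul_assoc]; exact h)

theorem cn_right {e e' x : A} (he' : IsIdempotentElem e') (h : e * x * e' = x) : x * e' = x :=
  idem_right he' h

theorem cn_cn {e e' : A} (he : IsIdempotentElem e) (he' : IsIdempotentElem e') (x : A) :
    e * (e * x * e') * e' = e * x * e' := by
  rw [← mul_assoc, ← mul_assoc, he.eq, mul_assoc, he'.eq]

/-- Nilpotent elements of a local corner lie in the radical. -/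
theorem LocAt.mem_jac {e : A} (he : IsIdempotentElem e) (h : LocAt e) {b : A}
    (hb : e * b * e = b) (hn : IsNilpotent b) : b ∈ Ring.jacobson A := by
  refine mem_jac_of_nil fun r => ?_
  have h1 := cn_left he hb
  have h2 := cn_right he hb
  have e1 : e * (e * r * b) * e = e * r * b := by
    rw [← mul_assoc, ← mul_assoc, he.eq, mul_assoc, h2]
  have h3 : IsNilpotent (e * r * b) := by
    rcases h.nil_or e1 with h3 | ⟨u, -, hu, -⟩
    · exact h3
    · obtain ⟨n, hn⟩ := hn
      have key : ∀ m : ℕ, (u * e * r) ^ m * b ^ m * e = e := by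
        intro m
        induction m with
        | zero => simp
        | succ m ih =>
          have c : e * (b ^ m * e) = b ^ m * e := by
            have : Commute e b := h1.trans h2.symm
            rw [← mul_assoc, (this.pow_right m).eq, mul_assoc, he.eq]
          calc (u * e * r) ^ (m + 1) * b ^ (m + 1) * e
              = (u * e * r) ^ m * ((u * (e * r * b)) * (b ^ m * e)) := by
                rw [pow_succ, pow_succ']; simp only [mul_assoc]
            _ = e := by rw [hu, c, ← mul_assoc, ih]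
      have h0 := key n
      rw [hn, mul_zero, zero_mul] at h0
      rw [← h0, zero_mul, zero_mul]
      exact IsNilpotent.zero
  have h4 : IsNilpotent (r * b * e) := nil_swap (by rwa [← mul_assoc])
  rwa [mul_assoc, h2] at h4

/-- An element outside the radical has a right inverse in a local corner. -/
theorem LocAt.right_inv {e e' x : A} (he : IsIdempotentElem e) (he' : IsIdempotentElem e')
    (h : LocAt e) (hx : e * x * e' = x) (hJ : x ∉ Ring.jacobson A) :
    ∃ y, e' * y * e = y ∧ x * y = e := by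
  obtain ⟨r, hr⟩ := not_forall.1 (mt mem_jac_of_nil hJ)
  have h1 := cn_left he hx
  have h2 := cn_right he' hx
  have e1 : e * (x * r * e) * e = x * r * e := by
    rw [← mul_assoc, ← mul_assoc, h1, mul_assoc, he.eq]
  rcases h.nil_or e1 with h3 | ⟨u, hu, -, hu'⟩
  · refine (hr (nil_swap ?_)).elim
    have := nil_swap h3
    rwa [← mul_assoc, h1] at this
  · refine ⟨e' * (r * e * u) * e, cn_cn he' he _, ?_⟩
    rw [← mul_assoc, ← mul_assoc, h2, ← mul_assoc, ← mul_assoc, hu', he.eq]

/-- An element outside the radical has a left inverse in a local corner. -/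
theorem LocAt.left_inv {e e' x : A} (he : IsIdempotentElem e) (he' : IsIdempotentElem e')
    (h : LocAt e') (hx : e * x * e' = x) (hJ : x ∉ Ring.jacobson A) :
    ∃ y, e' * y * e = y ∧ y * x = e' := by
  obtain ⟨r, hr⟩ := not_forall.1 (mt mem_jac_of_nil hJ)
  have h1 := cn_left he hx
  have h2 := cn_right he' hx
  have e1 : e' * (e' * r * x) * e' = e' * r * x := by
    rw [← mul_assoc, ← mul_assoc, he'.eq, mul_assoc, h2]
  rcases h.nil_or e1 with h3 | ⟨u, hu, hu', -⟩
  · refine (hr ?_).elim
    have := nil_swap (x := e') (y := r * x) (by rwa [← mul_assoc])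
    rwa [mul_assoc, h2] at this
  · refine ⟨e' * (u * e' * r) * e, cn_cn he' he _, ?_⟩
    rw [mul_assoc, h1, mul_assoc, mul_assoc u, mul_assoc u, hu', he'.eq]

end

variable (C A : Type) [CommRing C] [IsArtinianRing C] [Ring A] [Algebra C A] [Module.Finite C A]

include C

theorem artin : IsArtinianRing A := isArtinian_of_tower C inferInstance

theorem jac_pow : ∃ N : ℕ, Ring.jacobson A ^ N = ⊥ := by
  have := artin C A
  exact IsSemiprimaryRing.isNilpotent

variable {A}

theorem jac_nil {x : A} (h : x ∈ Ring.jacobson A) : IsNilpotent x := by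
  obtain ⟨N, hN⟩ := jac_pow C A
  exact ⟨N, by simpa [hN] using Ideal.pow_mem_pow h N⟩

omit [IsArtinianRing C] [Module.Finite C A] in
theorem smul_mem_jac {c : C} (h : IsNilpotent c) (x : A) : c • x ∈ Ring.jacobson A := by
  refine mem_jac_of_nil fun r => ?_
  obtain ⟨n, hn⟩ := h
  exact ⟨n, by rw [mul_smul_comm, smul_pow, hn, zero_smul]⟩

omit [Module.Finite C A] in
theorem max_nil [IsLocalRing C] {c : C} (h : c ∈ maximalIdeal C) : IsNilpotent c := by
  rw [← IsLocalRing.jacobson_eq_maximalIdeal ⊥ bot_ne_top, Ideal.jacobson_bot] at h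
  exact jac_nil C h

/-- A corner without idempotents is local. -/
theorem locAt_of_prim {e : A} (he : IsIdempotentElem e)
    (h : ∀ f, IsIdempotentElem f → e * f * e = f → f = 0 ∨ f = e) : LocAt e := by
  intro b0
  set b := e * b0 * e with hb0
  have hb : e * b * e = b := cn_cn he he _
  have h1 := cn_left he hb
  have h2 := cn_right he hb
  let N : ℕ →o (Submodule C A)ᵒᵈ := ⟨fun n => Submodule.span C {x | ∃ m, n < m ∧ x = b ^ m},
    fun n n' hn => Submodule.span_mono fun x ⟨m, hm, e⟩ => ⟨m, lt_of_le_of_lt hn hm, e⟩⟩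
  obtain ⟨n, hn⟩ := IsArtinian.monotone_stabilizes N
  have key : ∀ k, ∀ x ∈ Submodule.span C {x | ∃ m, k + 1 < m ∧ x = b ^ m},
      ∃ y, e * y * e = y ∧ Commute y b ∧ x = b ^ (k + 1) * y := by
    intro k x hx
    induction hx using Submodule.span_induction with
    | mem x hx =>
      obtain ⟨m, hm, rfl⟩ := hx
      obtain ⟨j, rfl⟩ := Nat.exists_eq_add_of_lt hm
      refine ⟨b ^ (j + 1), ?_, (Commute.refl b).pow_left _, by rw [← pow_add, add_assoc]⟩
      rw [pow_succ' b j, ← mul_assoc, h1, ← pow_succ', pow_succ, mul_assoc, h2]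
    | zero => exact ⟨0, by simp, Commute.zero_left _, by simp⟩
    | add x y _ _ a c =>
      obtain ⟨u, u1, u2, rfl⟩ := a
      obtain ⟨v, v1, v2, rfl⟩ := c
      exact ⟨u + v, by rw [mul_add, add_mul, u1, v1], u2.add_left v2, by rw [mul_add]⟩
    | smul c x _ a =>
      obtain ⟨u, u1, u2, rfl⟩ := a
      exact ⟨c • u, by rw [mul_smul_comm, smul_mul_assoc, u1], u2.smul_left c,
        by rw [mul_smul_comm]⟩
  have hm : b ^ (n + 1) ∈ Submodule.span C {x | ∃ m, 2 * n + 1 + 1 < m ∧ x = b ^ m} := by
    have e1 : N n = N (2 * n + 1 + 1) := hn _ (by omega)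
    have e2 : b ^ (n + 1) ∈ OrderDual.ofDual (N n) := Submodule.subset_span ⟨n + 1, by omega, rfl⟩
    rwa [e1] at e2
  obtain ⟨y, y1, y2, y3⟩ := key _ _ hm
  have y4 : b ^ (n + 1) * (b ^ (n + 1) * y) = b ^ (n + 1) := by
    rw [← mul_assoc, ← pow_add, show n + 1 + (n + 1) = 2 * n + 1 + 1 by omega, ← y3]
  have c1 : Commute y (b ^ (n + 1)) := y2.pow_right _
  have hf : IsIdempotentElem (b ^ (n + 1) * y) := by
    change b ^ (n + 1) * y * (b ^ (n + 1) * y) = _
    calc b ^ (n + 1) * y * (b ^ (n + 1) * y) = y * (b ^ (n + 1) * (b ^ (n + 1) * y)) := by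
          rw [← mul_assoc y, c1.eq]
      _ = _ := by rw [y4, c1.eq]
  have hf' : e * (b ^ (n + 1) * y) * e = b ^ (n + 1) * y := by
    rw [pow_succ', ← mul_assoc, ← mul_assoc, h1, mul_assoc, cn_right he y1]
  rcases h _ hf hf' with h0 | h0
  · exact Or.inl ⟨n + 1, by rw [← y4, h0, mul_zero]⟩
  · refine Or.inr ⟨b ^ n * y, ?_, ?_, ?_⟩
    · rw [mul_assoc, mul_assoc, cn_right he y1, ← (y2.pow_right n).eq, ← mul_assoc,
        cn_left he y1]
    · rw [mul_assoc, y2.eq, ← mul_assoc, ← pow_succ, h0]
    · rw [← mul_assoc, ← pow_succ', h0]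

omit [Module.Finite C A] in
/-- Purely inseparable corners are local. -/
theorem locAt_of_pi [IsLocalRing C] {e : A} (he : IsIdempotentElem e)
    (h : ∀ b, ∃ (m : ℕ) (c : C), 0 < m ∧ IsNilpotent ((e * b * e) ^ m - c • e)) : LocAt e := by
  intro b0
  obtain ⟨m, c, hm, hn⟩ := h b0
  set b := e * b0 * e with hb0
  have hb : e * b * e = b := cn_cn he he _
  have h1 := cn_left he hb
  have h2 := cn_right he hb
  have cb : Commute e b := h1.trans h2.symm
  obtain ⟨m, rfl⟩ := Nat.exists_eq_add_of_lt hm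
  rw [zero_add] at hn
  by_cases hc : c ∈ maximalIdeal C
  · left
    have h3 : IsNilpotent (c • e) := by
      obtain ⟨k, hk⟩ := max_nil C hc
      exact ⟨k, by rw [smul_pow, hk, zero_smul]⟩
    have h4 := Commute.isNilpotent_add (x := b ^ (m + 1) - c • e) (y := c • e)
      (((cb.pow_right _).symm.smul_right c).sub_left (Commute.refl _)) hn h3
    rw [sub_add_cancel] at h4
    exact h4.of_pow
  · right
    obtain ⟨d, hd⟩ := (IsLocalRing.notMem_maximalIdeal.1 hc).exists_left_inv
    set z := d • (b ^ (m + 1) - c • e) with hz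
    have hzn : IsNilpotent z := hn.smul d
    have cz : Commute z b :=
      (((Commute.refl b).pow_left _).sub_left (cb.smul_left c)).smul_left d
    have ce : Commute z e :=
      (((cb.pow_right _).symm).sub_left ((Commute.refl e).smul_left c)).smul_left d
    obtain ⟨w, hw⟩ := hzn.isUnit_add_one
    have cw : Commute (↑w⁻¹ : A) b := by
      refine Commute.units_inv_left ?_
      rw [hw]; exact cz.add_left (Commute.one_left b)
    have cw' : Commute (↑w⁻¹ : A) e := by
      refine Commute.units_inv_left ?_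
      rw [hw]; exact ce.add_left (Commute.one_left e)
    have e1 : d • b ^ (m + 1) = (w : A) * e := by
      rw [hw, hz, add_mul, one_mul, smul_mul_assoc, sub_mul, smul_mul_assoc, he.eq, pow_succ,
        mul_assoc, h2, smul_sub, smul_smul, hd, one_smul, sub_add_cancel]
    have e2 : (↑w⁻¹ : A) * (d • b ^ m) * b = e := by
      rw [mul_assoc, smul_mul_assoc, ← pow_succ, e1, Units.inv_mul_cancel_left]
    have c3 : Commute ((↑w⁻¹ : A) * (d • b ^ m)) b :=
      cw.mul_left (((Commute.refl b).pow_left m).smul_left d)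
    refine ⟨e * ((↑w⁻¹ : A) * (d • b ^ m)) * e, cn_cn he he _, ?_, ?_⟩
    · rw [mul_assoc, h1, mul_assoc, e2, he.eq]
    · rw [← mul_assoc, ← mul_assoc, h2, ← c3.eq, e2, he.eq]

omit [Module.Finite C A] in
theorem _root_.Pool.Agent.MP_bd94e8_al.H89.PIA.locAt [IsLocalRing C] {n : ℕ} {e : Fin n → A}
    (h : PIA C A e) (i : Fin n) : LocAt (e i) :=
  locAt_of_pi C (h.idem.idem i) fun b => by
    obtain ⟨r, c, hc⟩ := h.pi i b
    exact ⟨_, c, pow_pos (expChar_pos (ResidueField C) _) r, hc⟩

end Pool.Agent.MP_bd94e8_al.H83A
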