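import Pool.Agent.MP_bd94e8_al.H83A.All
import Pool.Agent.MP_bd94e8_al.H89.Last
import Pool.Agent.MP_bd94e8_al.H89.Main
import Pool.Agent.MP_bd94e8_al.H89.Dg
import Pool.Agent.MP_bd94e8_al.H89.Pf
import Pool.Agent.MP_bd94e8_al.H89.Thin
import Pool.Agent.MP_bd94e8_al.H89.ThinV
import Pool.Agent.MP_bd94e8_al.H89.Val
import Pool.Agent.MP_bd94e8_al.H89.Star
import Pool.Agent.MP_bd94e8_al.H6K.KSep
import Pool.Agent.MP_bd94e8_al.H22N.Rig
import Pool.Agent.MP_bd94e8_al.H22N.Step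
import Pool.Agent.MP_bd94e8_al.H1B.Tests
import Pool.Agent.MP_bd94e8_al.H58B.Piece
import Pool.Agent.MP_bd94e8_al.H65B.Good
import Pool.Agent.MP_bd94e8_al.H67B.Vv
import Pool.Agent.MP_bd94e8_al.H73B.W
import Pool.Agent.MP_bd94e8_al.H79B.Ht
import Pool.Agent.MP_bd94e8_al.H92B.Fd
import Pool.Agent.MP_bd94e8_al.H84B.ValDir
import Pool.Agent.MP_bd94e8_al.H84B.ValLift
import Pool.Agent.MP_bd94e8_al.H70B.Mor
import Pool.Agent.MP_bd94e8_al.H70B.Enl2
import Pool.Agent.MP_bd94e8_al.H69B.Gram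
import Pool.Agent.MP_bd94e8_al.H40B.ValSmall
import Pool.Agent.MP_bd94e8_al.H15B.Wp
import Pool.Agent.MP_bd94e8_al.H57B.Lw
import Pool.Agent.MP_bd94e8_al.H4B.Pos
import Pool.Agent.MP_bd94e8_al.H38B.Mix
import Pool.Agent.MP_bd94e8_al.H38B.GenF
import Pool.Agent.MP_bd94e8_al.H42B.Ord
import Pool.Agent.MP_bd94e8_al.H72B.V12
import Pool.Agent.MP_bd94e8_al.H95B.MainP
import Pool.Agent.MP_bd94e8_al.H95B.Push
import Pool.Agent.MP_bd94e8_al.H17B.Sep
import Pool.Agent.MP_bd94e8_al.H12B.Enl1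
import Pool.Agent.MP_bd94e8_al.H93B.Cov
import Pool.Agent.MP_bd94e8_al.H32B.Dl
import Pool.Agent.MP_bd94e8_al.H82B.Untw
import Pool.Agent.MP_bd94e8_al.H88B.Free
import Pool.Agent.MP_bd94e8_al.H88B.Coc
import Pool.Agent.MP_bd94e8_al.H66B.PosW
import Pool.Agent.MP_bd94e8_al.H97B.Norm
import Pool.Agent.MP_bd94e8_al.H97B.Ks
import Pool.Agent.MP_bd94e8_al.H97B.Gr
import Pool.Agent.MP_bd94e8_al.H44B.Raw
import Pool.Agent.MP_bd94e8_al.H63B.Loc
import Pool.Agent.MP_bd94e8_al.H14B.Comb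

/-!
All steps together.
-/

set_option autoImplicit false

namespace Pool.Agent.MP_bd94e8_al.H83A

open H89

theorem fin_star : SStar := H6K.star_of H6K.ksep
theorem fin_gr : SGr := sgr comb
theorem fin_cov : SCov := cov piece conv (dl ks1 ks2) push
theorem fin_pf : SPF := pf fin_star gram' lw
theorem fin_w : SW := w tt (good ord) untw path ord comb (pos posW) fin_gr
theorem fin_win : SWin := win comb (free coc) fin_gr (sep cov1) fin_pf fin_cov gram'
theorem fin_dg : SDG := dg fin_w (wp (norm comb coc) cov1) fin_win fin_cov fd cov1 push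
theorem fin_thin : SThin :=
  thin (thinStep (dec ks1) push tt (good ord) untw ord conj ht) fin_dg ord ht conj tt (good ord) untw
theorem fin_val : SVal :=
  val' ht tt (good ord) untw fin_w (valLift piece cov1) valDir fin_cov comb (free coc) fin_gr
    (sep cov1) cov1 fin_star fin_pf (valSmall (dec ks1) mor valDir) (v12 gram') vv gram'
theorem fin_main : SMain :=
  main ht conj mor (loc conj ht) tt (good ord) untw enl1 enl2' fin_dg fin_thin
    (thinV fin_thin tt (good ord) enl1 enl2' ht conj mor) (mix (dec ks1) enl1)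
    (genF mor (v12 gram') vv gram' push) fin_val
theorem fin_all : SAll := allA (raw ks1 ks2 (dec ks1) Rig2A.rig2 conj (main' mor ht fin_main))

end Pool.Agent.MP_bd94e8_al.H83A
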