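import Pool.Agent.MP_bd94e8_al.H83A.Kit

/-!
The etale step, the reduction step and the induction.
-/

set_option autoImplicit false
set_option linter.unusedSectionVars false

namespace Pool.Agent.MP_bd94e8_al.H83A

open Module Function IsLocalRing TensorProduct H83 H89

section
variable (C A : Type) [CommRing C] [IsArtinianRing C] [Ring A] [Algebra C A] [Module.Finite C A]

include C in
theorem refine_loc (hRef : SRef) {n : ℕ} {e : Fin n → A} (he : CompleteOrthogonalIdempotents e)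
    (h0 : ∀ i, e i ≠ 0) {i : Fin n} (h : ¬ LocAt (e i)) :
    ∃ e' : Fin (n + 1) → A, CompleteOrthogonalIdempotents e' ∧ ∀ i, e' i ≠ 0 := by
  have h1 := mt (locAt_of_prim C (he.idem i)) h
  push Not at h1
  obtain ⟨f, a, b, c, d⟩ := h1
  exact (hRef C A n e he h0).2 i f a b c d

variable [IsLocalRing C]

/-- The etale step. -/
theorem et (hExt : SExt) (hRef : SRef) (hPoly : SPoly) (hAdj : SAdj) (hSplit : SSplit)
    (hL : SBaseL) (hM : SBaseM) {n : ℕ} {e : Fin n → A} (he : CompleteOrthogonalIdempotents e)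
    (h0 : ∀ i, e i ≠ 0) (hP : ¬ PIA C A e) :
    ∃ (C' A' : Type) (_ : CommRing C') (_ : IsArtinianRing C') (_ : IsLocalRing C') (_ : Ring A')
      (_ : Algebra C' A') (_ : Module.Finite C' A') (e' : Fin (n + 1) → A'),
      CompleteOrthogonalIdempotents e' ∧ (∀ i, e' i ≠ 0) ∧ length C' A' ≤ length C A ∧
      (ConnA C A → ConnA C' A') ∧ (BF A → BF A') ∧ (BddA A' → BddA A) := by
  by_cases hloc : ∀ i, LocAt (e i)
  swap
  · obtain ⟨i, hi⟩ := not_forall.1 hloc
    obtain ⟨e', a, b⟩ := refine_loc C A hRef he h0 hi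
    exact ⟨C, A, inferInstance, inferInstance, inferInstance, inferInstance, inferInstance,
      inferInstance, e', a, b, le_rfl, id, id, id⟩
  have h1 := fun i => hPoly C A (e i) (he.idem i) (h0 i) (hloc i)
  obtain ⟨i, b, g, hb, g1, g2, g3, g4, g5, g6⟩ : ∃ i, _ := by
    by_contra hn
    have h2 := fun i => (h1 i).resolve_right fun h => hn ⟨i, h⟩
    exact hP ⟨he, h0, fun i => (h2 i).1, fun i => (h2 i).2⟩
  obtain ⟨C', _, _, _, _, _, _, θ, hU, hθ⟩ := hAdj C g g1 g3 g4
  have h2 := hSplit C C' A (e i) b g θ (he.idem i) hb g1 g2 g4 g5 g6 hθ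
  let φ : A →+* C' ⊗[C] A := (Algebra.TensorProduct.includeRight : A →ₐ[C] C' ⊗[C] A)
  obtain ⟨e', a, b⟩ := refine_loc C' (C' ⊗[C] A) hRef (he.map φ)
    (fun j h => h0 j ((FaithfullyFlat.one_tmul_eq_zero_iff C A (A := C') _).1 h)) (i := i) h2
  exact ⟨C', C' ⊗[C] A, inferInstance, inferInstance, inferInstance, inferInstance, inferInstance,
    inferInstance, e', a, b, (hL C C' A).1, fun h => hExt C C' _ ((hL C C' A).2 h),
    (hM C C' A).1, (hM C C' A).2⟩

/-- The reduction step. -/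
theorem zero (hRed : SRed) (hPres : SPres) (hBas : SBas) (hB2 : SB2) (hB3 : SB3) (hCnt : SCnt)
    (hRaw : SRaw) {n : ℕ} {e : Fin n → A} (hP : PIA C A e) (hc : ConnA C A) (hI : FinI A)
    (h : Alpha e ∨ Beta e) : BddA A := by
  obtain ⟨F, S, Z, _, _, _, _, _, _, _, _, _, _, _, _, _, ι, hR, hF⟩ := hRed C A n e hP h
  obtain ⟨Ω, P, Y, _, _, _, _, _, _, _, _, _, κ, π, m, X, _, _, h1, h2, h3⟩ :=
    hPres C A F S Z ι hR hF hI
  obtain ⟨t, ν, B, b1, b2⟩ := hBas C A F S Z ι hR hF (ResidueField C) residue_surjective Ω P κ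
  have h4 := hB2 C A F S Z ι hR hF Ω P Y κ π _ ν h1 b1 hc
  have : Module.Finite C F := Module.Finite.trans (ResidueField C) F
  obtain ⟨c, h5⟩ := hB3 C A F S Z ι hR hF (ResidueField C) Ω P Y κ π _ ν B h1 b1 b2
    (hRaw C (ResidueField C) F _ B (b2 ▸ h4))
  obtain ⟨c', h6⟩ := hCnt C A m X h2 c
  refine ⟨c', fun M _ _ a b => ?_⟩
  obtain ⟨h7, τ, _, l, h8⟩ := h3 (M ⧸ Wm ι M) (hR.quot M)
  refine h6 M b (Wm ι M) (fun x hx w hw => ?_) (h5 M b h7) τ l h8
  induction hw using Submodule.iSup_induction' with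
  | mem g w hw =>
    obtain ⟨s, rfl⟩ := hw
    rw [← map_smul, hF, ((max_nil C hx).map (algebraMap C F)).eq_zero, zero_smul, map_zero]
  | zero => exact smul_zero _
  | add u v _ _ hu hv => rw [smul_add, hu, hv, add_zero]

end

/-- The statement that is proved by induction on the length. -/
def Step (n : ℕ) : Prop := ∀ (C A : Type) [CommRing C] [IsArtinianRing C] [Ring A] [Algebra C A]
  [Module.Finite C A], length C A ≤ n → ConnA C A → BF A → BddA A

theorem finI (hQ : SQuot) {n : ℕ} (ih : ∀ m < n, Step m) (C A : Type) [CommRing C]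
    [IsArtinianRing C] [Ring A] [Algebra C A] [Module.Finite C A] (h : length C A ≤ n)
    (hc : ConnA C A) (hb : BF A) : FinI A := fun I _ hI => by
  obtain ⟨q1, q2, q3, q4⟩ := hQ C A I
  have h1 := (q3 hI).trans_le h
  rw [← len_cast, Nat.cast_lt] at h1
  exact q4 (ih _ h1 C _ len_cast.ge (q1 hc) (q2 hb)) hb

theorem step_loc (hExt : SExt) (hQ : SQuot) (hRef : SRef) (hPoly : SPoly) (hAdj : SAdj)
    (hSplit : SSplit) (hL : SBaseL) (hM : SBaseM) (hTri : STri') (hRed : SRed) (hPres : SPres)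
    (hBas : SBas) (hB2 : SB2) (hB3 : SB3) (hCnt : SCnt) (hRaw : SRaw) {n : ℕ}
    (ih : ∀ m < n, Step m) (d : ℕ) : ∀ (C A : Type) [CommRing C] [IsArtinianRing C] [IsLocalRing C]
      [Ring A] [Algebra C A] [Module.Finite C A] (m : ℕ) (e : Fin (m + 1) → A),
      CompleteOrthogonalIdempotents e → (∀ i, e i ≠ 0) → n ≤ m + d → length C A ≤ n → ConnA C A →
      BF A → BddA A := by
  induction d with
  | zero =>
    intro C A _ _ _ _ _ _ m e he h0 h1 h2 _ _
    have := (hRef C A _ e he h0).1.trans h2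
    norm_cast at this
    omega
  | succ d ihd =>
    intro C A _ _ _ _ _ _ m e he h0 h1 h2 hc hb
    by_cases hP : PIA C A e
    · have : Nontrivial A := ⟨_, _, h0 0⟩
      exact zero C A hRed hPres hBas hB2 hB3 hCnt hRaw hP hc (finI hQ ih C A h2 hc hb)
        (hTri C A _ e hP hc)
    · obtain ⟨C', A', _, _, _, _, _, _, e', a1, a2, a3, a4, a5, a6⟩ :=
        et C A hExt hRef hPoly hAdj hSplit hL hM he h0 hP
      exact a6 (ihd C' A' _ e' a1 a2 (by omega) (a3.trans h2) (a4 hc) (a5 hb))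

theorem bdd_of_idem {A : Type} [Ring A] [IsArtinianRing A] [IsNoetherianRing A] (hI : FinI A)
    {ε : A} (h1 : IsIdempotentElem ε) (h2 : ∀ a, a * ε = ε * a) (h3 : ε ≠ 0) (h4 : ε ≠ 1) :
    BddA A := by
  have key : ∀ δ : A, (∀ a, a * δ = δ * a) → δ ≠ 0 → ∃ c : ℕ, ∀ (M : Type) [AddCommGroup M]
      [Module A M], Module.Finite A M → Indec A M → (∀ x : M, δ • x = 0) → length A M ≤ c := by
    intro δ a b
    have : (Ideal.span {δ}).IsTwoSided := ⟨fun y hx => by
      obtain ⟨r, rfl⟩ := Ideal.mem_span_singleton'.1 hx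
      exact Ideal.mem_span_singleton'.2 ⟨r * y, by rw [mul_assoc, mul_assoc, a]⟩⟩
    obtain ⟨c, hc⟩ := (hI (Ideal.span {δ}) (by simpa using b)).bdd
    refine ⟨c, fun M _ _ u v w => hc M u v fun y hy x => ?_⟩
    obtain ⟨r, rfl⟩ := Ideal.mem_span_singleton'.1 hy
    rw [mul_smul, w, smul_zero]
  obtain ⟨c, hc⟩ := key ε h2 h3
  obtain ⟨c', hc'⟩ := key (1 - ε) (fun a => by rw [mul_sub, sub_mul, h2, mul_one, one_mul])
    (sub_ne_zero.2 h4.symm)
  refine ⟨max c c', fun M _ _ a b => ?_⟩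
  let f : M →ₗ[A] M := ⟨⟨fun x => ε • x, smul_add ε⟩, fun r x => by
    simp only [RingHom.id_apply]; rw [← mul_smul, ← mul_smul, h2]⟩
  have hf : IsIdempotentElem f := LinearMap.ext fun x => by
    change ε • ε • x = ε • x
    rw [← mul_smul, h1.eq]
  rcases b.2 _ _ (LinearMap.IsIdempotentElem.isCompl hf) with h | h
  · exact (hc M a b fun x => LinearMap.congr_fun (LinearMap.range_eq_bot.1 h) x).trans
      (Nat.cast_le.2 (le_max_left _ _))
  · refine (hc' M a b fun x => LinearMap.ker_eq_bot.1 h ?_).trans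
      (Nat.cast_le.2 (le_max_right _ _))
    change ε • (1 - ε) • x = ε • 0
    rw [← mul_smul, h1.mul_one_sub_self, zero_smul, smul_zero]

theorem step (hExt : SExt) (hQ : SQuot) (hRef : SRef) (hPoly : SPoly) (hAdj : SAdj)
    (hSplit : SSplit) (hL : SBaseL) (hM : SBaseM) (hTri : STri') (hRed : SRed) (hPres : SPres)
    (hBas : SBas) (hB2 : SB2) (hB3 : SB3) (hCnt : SCnt) (hRaw : SRaw) (n : ℕ) : Step n := by
  induction n using Nat.strong_induction_on with
  | _ n ih =>
  intro C A _ _ _ _ _ h hc hb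
  have := artin C A
  have := noeth C A
  rcases subsingleton_or_nontrivial A with h0 | h0
  · refine ⟨0, fun M _ _ _ b => ?_⟩
    have := b.1
    exact (not_subsingleton M (Module.subsingleton A M)).elim
  by_cases h1 : ∃ c : C, IsIdempotentElem (algebraMap C A c) ∧ algebraMap C A c ≠ 0 ∧
      algebraMap C A c ≠ 1
  · obtain ⟨c, a1, a2, a3⟩ := h1
    exact bdd_of_idem (finI hQ ih C A h hc hb) a1 (fun a => (Algebra.commutes c a).symm) a2 a3
  push Not at h1
  let I := RingHom.ker (algebraMap C A)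
  let φ : C ⧸ I →+* A := RingHom.kerLift (algebraMap C A)
  have hφ : Injective φ := RingHom.kerLift_injective _
  let _ : Algebra (C ⧸ I) A := φ.toAlgebra' fun c x => by
    obtain ⟨c, rfl⟩ := Ideal.Quotient.mk_surjective c
    exact Algebra.commutes c x
  have : IsScalarTower C (C ⧸ I) A := IsScalarTower.of_algebraMap_eq fun _ => rfl
  have : Module.Finite (C ⧸ I) A := Module.Finite.of_restrictScalars_finite C _ _
  have : Nontrivial (C ⧸ I) := φ.domain_nontrivial
  have hl : LocAt (1 : C ⧸ I) := locAt_of_prim (C ⧸ I) IsIdempotentElem.one fun f hf _ => by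
    obtain ⟨c, rfl⟩ := Ideal.Quotient.mk_surjective f
    by_cases e : algebraMap C A c = 0
    · exact Or.inl (hφ (e.trans (map_zero φ).symm))
    · exact Or.inr (hφ ((h1 c (hf.map φ) e).trans (map_one φ).symm))
  have : IsLocalRing (C ⧸ I) := IsLocalRing.of_isUnit_or_isUnit_one_sub_self fun x => by
    rcases hl.nil_or (b := x) (by simp) with h | ⟨u, -, -, h⟩
    · exact Or.inr h.isUnit_one_sub
    · exact Or.inl (IsUnit.of_mul_eq_one u h)
  refine step_loc hExt hQ hRef hPoly hAdj hSplit hL hM hTri hRed hPres hBas hB2 hB3 hCnt hRaw ih n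
    (C ⧸ I) A 0 (fun _ => 1) ((CompleteOrthogonalIdempotents.unique_iff (I := Fin 1)).2 rfl)
    (fun _ => one_ne_zero) (by omega) ?_ (hExt C _ A hc) hb
  rwa [← length_eq_of_surjective (S := C) (R := C ⧸ I) Ideal.Quotient.mk_surjective]

theorem all_of (hExt : SExt) (hQ : SQuot) (hRef : SRef) (hPoly : SPoly) (hAdj : SAdj)
    (hSplit : SSplit) (hL : SBaseL) (hM : SBaseM) (hTri : STri') (hRed : SRed) (hPres : SPres)
    (hBas : SBas) (hB2 : SB2) (hB3 : SB3) (hCnt : SCnt) (hRaw : SRaw) : SAll := by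
  intro R _ _ A _ _ _ hG
  have hb : BF A := fun c => by
    obtain ⟨ι, _, X, _, _, _, _, _, -, h⟩ := exists_fam R hG c
    exact finMany_of_fam X fun M _ _ _ b c => h M b c
  obtain ⟨c, hc⟩ := step hExt hQ hRef hPoly hAdj hSplit hL hM hTri hRed hPres hBas hB2 hB3 hCnt
    hRaw (len R A) R A len_cast.ge (fun N _ _ _ _ _ _ _ h i => exists_conn hG N h i) hb
  exact (hb c).mono fun M _ _ a b _ => hc M a b

end Pool.Agent.MP_bd94e8_al.H83A
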