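import Pool.Agent.MP_bd94e8_al.H89.Spec
import Pool.Agent.MP_bd94e8_al.H83.Red
import Pool.Agent.MP_bd94e8_al.H83.Ind

/-!
Definitions and statements for the algebra level.
-/

set_option autoImplicit false
set_option linter.unusedVariables false

namespace Pool.Agent.MP_bd94e8_al.H83A

open Module Function Polynomial IsLocalRing TensorProduct H89

/-- Every element of the corner of `e` is nilpotent or invertible in the corner. -/
def LocAt {A : Type} [Ring A] (e : A) : Prop :=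
  ∀ b, IsNilpotent (e * b * e) ∨ ∃ u, e * u * e = u ∧ u * (e * b * e) = e ∧ e * b * e * u = e

section corner
variable {C A : Type} [CommRing C] [Ring A] [Algebra C A]

/-- The elements of `X` in the corner from `u` to `v`. -/
def cn (u v : A) (X : Submodule C A) : Submodule C A where
  carrier := {x | x ∈ X ∧ u * x * v = x}
  zero_mem' := ⟨X.zero_mem, by simp⟩
  add_mem' := fun ha hb => ⟨X.add_mem ha.1 hb.1, by rw [mul_add, add_mul, ha.2, hb.2]⟩
  smul_mem' := fun c _ h => ⟨X.smul_mem c h.1, by rw [mul_smul_comm, smul_mul_assoc, h.2]⟩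

theorem mem_cn {u v : A} {X : Submodule C A} {x : A} : x ∈ cn u v X ↔ x ∈ X ∧ u * x * v = x :=
  Iff.rfl

/-- The length of the image of `X` modulo `Y`. -/
noncomputable def ql (X Y : Submodule C A) : ℕ := H83.len C (X.map Y.mkQ)

variable (C A) in
/-- The radical as a submodule over the base. -/
noncomputable def Jc : Submodule C A := (Ring.jacobson A).restrictScalars C

/-- A socle element between two idempotents. -/
def Soc {n : ℕ} (e : Fin n → A) (s l : Fin n) : Prop :=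
  ∃ a, a ≠ 0 ∧ e s * a * e l = a ∧ ∀ r ∈ Ring.jacobson A, r * a = 0

variable (C) in
/-- Two elements of corners have the same residue. -/
def Same [IsLocalRing C] (u v b b' : A) : Prop := ∃ (r : ℕ) (c : C),
  IsNilpotent ((u * b * u) ^ (ringExpChar (ResidueField C) ^ r) - c • u) ∧
  IsNilpotent ((v * b' * v) ^ (ringExpChar (ResidueField C) ^ r) - c • v)

variable (C) in
/-- Two corners have the same residue field. -/
def Iso [IsLocalRing C] (u v : A) : Prop :=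
  (∀ b, ∃ b', Same C u v b b') ∧ ∀ b', ∃ b, Same C u v b b'

end corner

section red
variable {A : Type} [Ring A] (F : Type) [Field F] {S Z Ω P Y : Type} [AddCommGroup S] [Module A S]
  [Module F S] [SMulCommClass A F S] [AddCommGroup Z] [Module A Z] [AddCommGroup Ω] [Module A Ω]
  [AddCommGroup P] [Module A P] [AddCommGroup Y] [Module A Y]

/-- The sum of the images of `S` under the maps that extend to `Z`. -/
def Wm (ι : S →ₗ[A] Z) (M : Type) [AddCommGroup M] [Module A M] : Submodule A M :=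
  ⨆ h : Z →ₗ[A] M, LinearMap.range (h ∘ₗ ι)

/-- The data of a reduction. -/
structure Red (ι : S →ₗ[A] Z) : Prop where
  simple : IsSimpleModule A S
  inj : Injective ι
  scal : ∀ σ : S →ₗ[A] S, ∃ c : F, ∀ x, σ x = c • x
  ext : ∀ c : F, ∃ τ : Z →ₗ[A] Z, ∀ x, τ (ι x) = ι (c • x)
  quot : ∀ (M : Type) [AddCommGroup M] [Module A M] (h : Z →ₗ[A] M ⧸ Wm ι M), h ∘ₗ ι = 0
  ne : ∃ h : Z →ₗ[A] A, h ∘ₗ ι ≠ 0
  alt : Surjective ι ∨ (Projective A Z ∧ ∀ (τ : Z →ₗ[A] Z) x, τ (ι x) ∈ LinearMap.range ι)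

/-- A presentation adapted to a reduction. -/
structure Pres (ι : S →ₗ[A] Z) (κ : Ω →ₗ[A] P) (π : P →ₗ[A] Y) : Prop where
  inj : Injective κ
  exact : Exact κ π
  surj : Surjective π
  kill : ∀ h : Z →ₗ[A] Y, h ∘ₗ ι = 0
  alt : Surjective ι ∨ ∃ (s : Z →ₗ[A] P) (g : P →ₗ[A] Z) (s' : S →ₗ[A] Ω) (τ : Ω →ₗ[A] S),
    κ ∘ₗ s' = s ∘ₗ ι ∧ ι ∘ₗ τ = g ∘ₗ κ ∧ τ ∘ₗ s' = LinearMap.id

/-- Maps to `S` that extend to maps `P → Z`. -/
def N0 (ι : S →ₗ[A] Z) (κ : Ω →ₗ[A] P) : Set (Ω →ₗ[A] S) :=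
  {η | ∃ g : P →ₗ[A] Z, g ∘ₗ κ = ι ∘ₗ η}

variable {Pt : Type} [Fintype Pt]

/-- A basis modulo `N0`. -/
structure Bas (ι : S →ₗ[A] Z) (κ : Ω →ₗ[A] P) (n : Pt → (Ω →ₗ[A] S)) : Prop where
  indep : ∀ c : Pt → F, ∑ p, c p • n p ∈ N0 ι κ → c = 0
  span : ∀ η, ∃ c : Pt → F, η - ∑ p, c p • n p ∈ N0 ι κ

/-- The matrices of the endomorphisms of the presentation. -/
def BSet (ι : S →ₗ[A] Z) (κ : Ω →ₗ[A] P) (n : Pt → (Ω →ₗ[A] S)) : Set (Matrix Pt Pt F) :=
  {b | ∃ (γ : P →ₗ[A] P) (γ' : Ω →ₗ[A] Ω), γ ∘ₗ κ = κ ∘ₗ γ' ∧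
    ∀ p, n p ∘ₗ γ' - ∑ q, b q p • n q ∈ N0 ι κ}

end red

/-! ### Change of the base -/

/-- Connections over a bigger Hahn ring. -/
def SExt : Prop := ∀ (C0 C A : Type) [CommRing C0] [IsArtinianRing C0] [CommRing C] [Ring A]
  [Algebra C0 C] [Algebra C A] [Algebra C0 A] [IsScalarTower C0 C A] [Module.Finite C0 C],
  ConnA C0 A → ConnA C A

/-- Passage to quotients. -/
def SQuot : Prop := ∀ (C A : Type) [CommRing C] [IsArtinianRing C] [Ring A] [Algebra C A]
  [Module.Finite C A] (I : Ideal A) [I.IsTwoSided],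
  (ConnA C A → ConnA C (A ⧸ I)) ∧ (BF A → BF (A ⧸ I)) ∧
  (I ≠ ⊥ → length C (A ⧸ I) < length C A) ∧
  (BddA (A ⧸ I) → BF A → FinMany A fun M _ _ => ∀ a ∈ I, ∀ x : M, a • x = 0)

/-- Refinement of idempotents. -/
def SRef : Prop := ∀ (C A : Type) [CommRing C] [Ring A] [Algebra C A] (n : ℕ) (e : Fin n → A),
  CompleteOrthogonalIdempotents e → (∀ i, e i ≠ 0) → (n : ℕ∞) ≤ length C A ∧
  ∀ i f, IsIdempotentElem f → e i * f * e i = f → f ≠ 0 → f ≠ e i →
    ∃ e' : Fin (n + 1) → A, CompleteOrthogonalIdempotents e' ∧ ∀ i, e' i ≠ 0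

/-- A separable element in a corner. -/
def SPoly : Prop := ∀ (C A : Type) [CommRing C] [IsArtinianRing C] [IsLocalRing C] [Ring A]
  [Algebra C A] [Module.Finite C A] (e : A), IsIdempotentElem e → e ≠ 0 → LocAt e →
  ((∀ b, ∃ (r : ℕ) (c : C),
      IsNilpotent ((e * b * e) ^ (ringExpChar (ResidueField C) ^ r) - c • e)) ∧
    ∀ b b', IsNilpotent (e * b * e * (e * b' * e) - e * b' * e * (e * b * e))) ∨
  ∃ (b : A) (g : C[X]), e * b * e = b ∧ g.Monic ∧ 2 ≤ g.natDegree ∧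
    Irreducible (g.map (residue C)) ∧ (g.map (residue C)).Separable ∧
    IsNilpotent (aeval b g * e) ∧
    ∀ Q : C[X], IsNilpotent (aeval b Q * e) → g.map (residue C) ∣ Q.map (residue C)

/-- The unramified extension given by a polynomial. -/
def SAdj : Prop := ∀ (C : Type) [CommRing C] [IsArtinianRing C] [IsLocalRing C] (g : C[X]),
  g.Monic → Irreducible (g.map (residue C)) → (g.map (residue C)).Separable →
  ∃ (C' : Type) (_ : CommRing C') (_ : IsArtinianRing C') (_ : IsLocalRing C') (_ : Algebra C C')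
    (_ : Module.Free C C') (_ : Module.Finite C C') (θ : C'),
    Algebra.FormallyUnramified C C' ∧ aeval θ g = 0

/-- The corner splits after the extension. -/
def SSplit : Prop := ∀ (C C' A : Type) [CommRing C] [IsArtinianRing C] [IsLocalRing C]
  [CommRing C'] [IsArtinianRing C'] [IsLocalRing C'] [Algebra C C'] [Module.Free C C']
  [Module.Finite C C'] [Ring A] [Algebra C A] (e b : A) (g : C[X]) (θ : C'),
  IsIdempotentElem e → e * b * e = b → g.Monic → 2 ≤ g.natDegree →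
  (g.map (residue C)).Separable → IsNilpotent (aeval b g * e) →
  (∀ Q : C[X], IsNilpotent (aeval b Q * e) → g.map (residue C) ∣ Q.map (residue C)) →
  aeval θ g = 0 → ¬ LocAt ((1 : C') ⊗ₜ[C] e : C' ⊗[C] A)

/-- Lengths and connections under unramified extension. -/
def SBaseL : Prop := ∀ (C C' A : Type) [CommRing C] [IsArtinianRing C] [IsLocalRing C]
  [CommRing C'] [IsArtinianRing C'] [IsLocalRing C'] [Algebra C C'] [Module.Finite C C']
  [Algebra.FormallyUnramified C C'] [Ring A] [Algebra C A] [Module.Finite C A],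
  length C' (C' ⊗[C] A) ≤ length C A ∧ (ConnA C A → ConnA C (C' ⊗[C] A))

/-- Modules under unramified extension. -/
def SBaseM : Prop := ∀ (C C' A : Type) [CommRing C] [IsArtinianRing C] [CommRing C']
  [Nontrivial C'] [Algebra C C'] [Module.Free C C'] [Module.Finite C C']
  [Algebra.FormallyUnramified C C'] [Ring A] [Algebra C A] [Module.Finite C A],
  (BF A → BF (C' ⊗[C] A)) ∧ (BddA (C' ⊗[C] A) → BddA A)

/-! ### The dichotomy -/

/-- The test for the separated quiver. -/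
def SSepQ : Prop := ∀ (C A : Type) [CommRing C] [IsArtinianRing C] [Ring A] [Algebra C A]
  [Module.Finite C A], ConnA C A → ∀ (T₁ T₀ : Type) [Fintype T₁] [Fintype T₀] (u : T₁ → A)
  (v : T₀ → A) (R W W₂ : Submodule C A), (∀ a, IsIdempotentElem (u a)) →
  (∀ b, IsIdempotentElem (v b)) →
  (∀ a a' b, ∀ r ∈ cn (u a) (u a') R, ∀ w ∈ cn (u a') (v b) W, r * w ∈ W₂) →
  (∀ a b b', ∀ w ∈ cn (u a) (v b) W, ∀ r ∈ cn (v b) (v b') R, w * r ∈ W₂) →
  ((∃ a, u a ∉ R) ∨ ∃ b, v b ∉ R) →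
  ∑ a, ∑ b, ql (cn (u a) (v b) W) W₂ <
    ∑ a, ∑ a', ql (cn (u a) (u a') ⊤) R + ∑ b, ∑ b', ql (cn (v b) (v b') ⊤) R

/-- Socle elements between corners with the same residue field. -/
def SSoc : Prop := ∀ (C A : Type) [CommRing C] [IsArtinianRing C] [IsLocalRing C] [Ring A]
  [Algebra C A] [Module.Finite C A] (n : ℕ) (e : Fin n → A), PIA C A e → ∀ s l, Soc e s l →
  Iso C (e s) (e l) → Alpha e

/-- The lengths of the bimodules of arrows. -/
def SEdge : Prop := ∀ (C A : Type) [CommRing C] [IsArtinianRing C] [IsLocalRing C] [Ring A]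
  [Algebra C A] [Module.Finite C A] (n : ℕ) (e : Fin n → A), PIA C A e → ∀ i j,
  (¬ Iso C (e i) (e j) → ∀ x, e i * x * e j ∈ Ring.jacobson A) ∧
  ∀ (W₂ : Ideal A) [W₂.IsTwoSided],
    (∀ r ∈ Ring.jacobson A, ∀ y ∈ Ring.jacobson A, r * e i * y ∈ W₂ ∧ r * e j * y ∈ W₂) →
    ∀ x ∈ cn (e i) (e j) (Jc C A), x ∉ W₂ →
      ql (cn (e i) (e i) ⊤) (Jc C A) ≤ ql (cn (e i) (e j) (Jc C A)) (W₂.restrictScalars C) ∧
      ql (cn (e j) (e j) ⊤) (Jc C A) ≤ ql (cn (e i) (e j) (Jc C A)) (W₂.restrictScalars C) ∧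
      (Iso C (e i) (e j) ∨
        2 * ql (cn (e i) (e i) ⊤) (Jc C A) ≤ ql (cn (e i) (e j) (Jc C A)) (W₂.restrictScalars C) ∨
        2 * ql (cn (e j) (e j) ⊤) (Jc C A) ≤ ql (cn (e i) (e j) (Jc C A)) (W₂.restrictScalars C))

/-- The dichotomy. -/
def STri' : Prop := ∀ (C A : Type) [CommRing C] [IsArtinianRing C] [IsLocalRing C] [Ring A]
  [Algebra C A] [Module.Finite C A] [Nontrivial A] (n : ℕ) (e : Fin n → A), PIA C A e →
  ConnA C A → Alpha e ∨ Beta e

/-! ### The reduction -/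

/-- The data of the reduction exist. -/
def SRed : Prop := ∀ (C A : Type) [CommRing C] [IsArtinianRing C] [IsLocalRing C] [Ring A]
  [Algebra C A] [Module.Finite C A] (n : ℕ) (e : Fin n → A), PIA C A e → (Alpha e ∨ Beta e) →
  ∃ (F S Z : Type) (_ : Field F) (_ : Algebra (ResidueField C) F) (_ : Algebra C F)
    (_ : IsScalarTower C (ResidueField C) F) (_ : FiniteDimensional (ResidueField C) F)
    (_ : IsPurelyInseparable (ResidueField C) F) (_ : AddCommGroup S) (_ : Module A S)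
    (_ : Module F S) (_ : SMulCommClass A F S) (_ : AddCommGroup Z) (_ : Module A Z)
    (_ : Module.Finite A Z) (ι : S →ₗ[A] Z),
    Red F ι ∧ ∀ (c : C) (x : S), algebraMap C A c • x = algebraMap C F c • x

/-- A statement about reductions. -/
def ForRed (Q : ∀ (C A F S Z : Type) [CommRing C] [Ring A] [Algebra C A] [Field F] [Algebra C F]
    [AddCommGroup S] [Module A S] [Module F S] [SMulCommClass A F S] [AddCommGroup Z] [Module A Z],
    (S →ₗ[A] Z) → Prop) : Prop :=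
  ∀ (C A F S Z : Type) [CommRing C] [IsArtinianRing C] [Ring A] [Algebra C A] [Module.Finite C A]
    [Field F] [Algebra C F] [AddCommGroup S] [Module A S] [Module F S] [SMulCommClass A F S]
    [AddCommGroup Z] [Module A Z] [Module.Finite A Z] (ι : S →ₗ[A] Z), Red F ι →
    (∀ (c : C) (x : S), algebraMap C A c • x = algebraMap C F c • x) → Q C A F S Z ι

/-- The presentation exists. -/
def SPres : Prop := ForRed fun _ A _ _ Z _ _ _ _ _ _ _ _ _ _ _ ι => FinI A →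
  ∃ (Ω P Y : Type) (_ : AddCommGroup Ω) (_ : Module A Ω) (_ : Module.Finite A Ω)
    (_ : AddCommGroup P) (_ : Module A P) (_ : Module.Finite A P) (_ : Projective A P)
    (_ : AddCommGroup Y) (_ : Module A Y) (κ : Ω →ₗ[A] P) (π : P →ₗ[A] Y) (m : ℕ)
    (X : Fin m → Type) (_ : ∀ i, AddCommGroup (X i)) (_ : ∀ i, Module A (X i)),
    Pres ι κ π ∧ (∀ i, Module.Finite A (X i) ∧ Nontrivial (X i)) ∧
    ∀ (M : Type) [AddCommGroup M] [Module A M] [Module.Finite A M],
      (∀ h : Z →ₗ[A] M, h ∘ₗ ι = 0) → (∃ r : ℕ, H83.Smd A M (Fin r → Y)) ∧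
      ∃ (τ : Type) (_ : Fintype τ) (l : τ → Fin m), Nonempty (M ≃ₗ[A] ∀ s, X (l s))

/-- The basis and the algebra of matrices exist. -/
def SBas : Prop := ForRed fun C A F S _ _ _ _ _ _ _ _ _ _ _ _ ι =>
  ∀ (k : Type) [Field k] [Algebra C k] [Algebra k F] [IsScalarTower C k F],
    Surjective (algebraMap C k) → ∀ (Ω P : Type) [AddCommGroup Ω] [Module A Ω]
    [Module.Finite A Ω] [AddCommGroup P] [Module A P] (κ : Ω →ₗ[A] P),
    ∃ (m : ℕ) (n : Fin m → (Ω →ₗ[A] S)) (B : Subalgebra k (Matrix (Fin m) (Fin m) F)),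
      Bas F ι κ n ∧ (B : Set (Matrix (Fin m) (Fin m) F)) = BSet F ι κ n

/-- Connections pass to the problem. -/
def SB2 : Prop := ForRed fun C A F S _ _ _ _ _ _ _ _ _ _ _ _ ι =>
  ∀ (Ω P Y : Type) [AddCommGroup Ω] [Module A Ω] [Module.Finite A Ω] [AddCommGroup P] [Module A P]
    [Module.Finite A P] [Projective A P] [AddCommGroup Y] [Module A Y] (κ : Ω →ₗ[A] P)
    (π : P →ₗ[A] Y) (Pt : Type) [Fintype Pt] (n : Pt → (Ω →ₗ[A] S)), Pres ι κ π → Bas F ι κ n →
    ConnA C A → Conn C (BSet F ι κ n)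

/-- Extension of endomorphisms of a submodule. -/
def SLift : Prop := ∀ (A Ω P Y M : Type) [Ring A] [AddCommGroup Ω] [Module A Ω] [AddCommGroup P]
  [Module A P] [Projective A P] [AddCommGroup Y] [Module A Y] [AddCommGroup M] [Module A M]
  (κ : Ω →ₗ[A] P) (π : P →ₗ[A] Y) (W : Submodule A M) (g : W →ₗ[A] W) (r : ℕ), Exact κ π →
  Surjective π → H83.Smd A (M ⧸ W) (Fin r → Y) →
  (∀ (p : P →ₗ[A] M) (η : Ω →ₗ[A] W), p ∘ₗ κ = W.subtype ∘ₗ η →
    ∃ h : P →ₗ[A] M, h ∘ₗ κ = W.subtype ∘ₗ g ∘ₗ η) →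
  ∃ G : M →ₗ[A] M, G ∘ₗ W.subtype = W.subtype ∘ₗ g

/-- Bounds pass from the problem to the submodule. -/
def SB3 : Prop := ForRed fun C A F S _ _ _ _ _ _ _ _ _ _ _ _ ι =>
  ∀ (k : Type) [Field k] [Algebra k F] (Ω P Y : Type) [AddCommGroup Ω] [Module A Ω]
    [AddCommGroup P] [Module A P] [Projective A P] [AddCommGroup Y] [Module A Y] (κ : Ω →ₗ[A] P)
    (π : P →ₗ[A] Y) (Pt : Type) [Fintype Pt] [DecidableEq Pt] (n : Pt → (Ω →ₗ[A] S))
    (B : Subalgebra k (Matrix Pt Pt F)), Pres ι κ π → Bas F ι κ n →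
    (B : Set (Matrix Pt Pt F)) = BSet F ι κ n → (Prob.triv B).Bnd →
    ∃ c : ℕ, ∀ (M : Type) [AddCommGroup M] [Module A M] [Module.Finite A M], H83.Indec A M →
      (∃ r : ℕ, H83.Smd A (M ⧸ Wm ι M) (Fin r → Y)) → length A (Wm ι M) ≤ c

/-- The number of summands of the quotient is bounded. -/
def SCnt : Prop := ∀ (C A : Type) [CommRing C] [IsArtinianRing C] [IsLocalRing C] [Ring A]
  [Algebra C A] [Module.Finite C A] (m : ℕ) (X : Fin m → Type) [∀ i, AddCommGroup (X i)]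
  [∀ i, Module A (X i)], (∀ i, Module.Finite A (X i) ∧ Nontrivial (X i)) → ∀ c : ℕ, ∃ c' : ℕ,
  ∀ (M : Type) [AddCommGroup M] [Module A M] [Module.Finite A M], H83.Indec A M →
    ∀ W : Submodule A M, (∀ x ∈ maximalIdeal C, ∀ w ∈ W, algebraMap C A x • w = 0) →
      length A W ≤ c → ∀ (τ : Type) [Fintype τ] (l : τ → Fin m),
      Nonempty ((M ⧸ W) ≃ₗ[A] ∀ s, X (l s)) → length A M ≤ c'

end Pool.Agent.MP_bd94e8_al.H83A
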